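import Pool.Agent.Helper7K9.CT.Pure

/-!
# Orthogonal lifting in all codimensions from purity, without the Tate conjecture

Let `𝒳` be a regular proper flat model of a smooth proper variety `X` over a number field `E`, and let
`i` be any codimension. We prove that the assertion Q1 of the problem follows from one case of the
weight-monodromy conjecture and from the equality of homological and numerical equivalence for
cycles of dimension `j - 1` on the components of strictly semistable reductions. The classical argument
(Beilinson, Bloch) needs the Tate conjecture in codimension `j - 1` instead of the latter. The point is
that here both conditions are known for varieties of abelian type, so that the Beilinson-Bloch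
height pairing is defined for them in all codimensions.

## The theorem

Suppose that at every closed point `v` of the ring of integers the cohomologically trivial classes in
`Ch^i(X)` are retracts (`Decomposes`) of the cohomologically trivial classes in the groups `Ch^j(X')` of
finitely many smooth projective varieties `X'` (`IsPurePiece`; the dimension `d` and the codimension `j`
may depend on `X'`), by correspondences `Γ` from `X` to `X'` and `Γ'` from `X'` to `X` over a finite
extension of the completion of `E`, such that `X'` has strictly semistable reduction and

* (`WeightMonodromy`) the map `N : E_2^(-1,q+1) → E_2^(1,q-1)` of the weight spectral sequence is injective
  for `q = 2 (d - j) + 1` (a part of the weight-monodromy conjecture for `H^q(X')`, equivalent by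
  duality to its surjectivity in degree `2j - 1`);
* (`HomEqNum W D j`) homological and numerical equivalence agree for cycles of dimension `j - 1` on the
  components of the reduction which meet other components.

Then every cohomologically trivial class in `Ch^i(X)` is the restriction of a class in `Ch^i(𝒳)` which
pairs to zero with all classes in `Ch^(d+1-i)_fin(𝒳)`. There is no condition at the places where `X'` has
good reduction.

If the motive of `X` is of abelian type, that is a direct summand of a sum of (twisted) motives of
products of curves, over an extension of `E` (for example, `X` an abelian variety, a product of
curves, a Fermat hypersurface), one can take products of curves for the varieties `X'`. Over a finite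
extension they have strictly semistable models whose components are obtained from products of curves
by blowing up such products (Hartl). The weight-monodromy conjecture is known for curves, and
therefore for their products, and homological and numerical equivalence agree on abelian varieties,
hence on varieties of abelian type, over the algebraic closure of a finite field, for a set of primes
`ℓ` of positive density (Clozel). The prime `ℓ` can be chosen for every `v`.

## How the geometry enters

The objects of arithmetic intersection theory are given by the structure `Model` and by the
definitions `Decomposes` and `IsPurePiece`, which list the known facts about the correspondences and
about the strictly semistable model `𝒳'` of `X'`, with the strata `D` of its closed fibre, which are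
smooth projective varieties over the algebraically closed residue field `k`, and `ℓ`-adic cohomology
`W` on them (`IsSemistable`, `Transfer`, `IsCompatible`, `HasWeightBoundaries`).

## The proof

The lifting exists if and only if the intersection number of `Γ z` with every family `β` of cycles of
codimension `d - j` on the components vanishes, when `ρβ` is orthogonal to `ρα` for all families `α` of
cycles of codimension `j - 1`. For such `β` the cycles `γρβ` of dimension `j - 1` are numerically,
hence homologically, trivial. So `ρβ` is a cocycle of total degree `2 (d - j) + 1` in `E_1^(-1,*)`, and its
image `ρβ` in `E_1^(1,*)` is the boundary of `β`. By the weight-monodromy conjecture `ρβ = γ h_2` and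
`ρ h_2 + γ h_4 = 0`, `ρ h_4 + γ h_6 = 0` and so on, while the class of `Γ z` is `γ g_1` with
`ρ g_1 + γ g_3 = 0`, `ρ g_3 + γ g_5 = 0` and so on. The intersection number is
`⟨γ g_1, β⟩ = ⟨g_1, γ h_2⟩ = ⟨g_3, γ h_4⟩ = ... = 0`.
-/

set_option autoImplicit false

namespace Pool.Agent.Results.MP_62d77c_ag.AbelianType

open Pool.Agent.Helper7K9.CT

/-- **Orthogonal lifting from purity.** Let `𝒳` be a regular proper flat model of a smooth proper
variety `X` over a number field, such that at every place the cohomologically trivial classes of
codimension `i` on `X` are retracts, by correspondences, of those of codimension `j` on varieties `X'`
of dimension `d` with strictly semistable reduction, for which the weight-monodromy conjecture holds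
in degree `2 (d - j) + 1` (equivalently, `2j - 1`) and homological and numerical equivalence agree for
cycles of dimension `j - 1` on the components of the reduction which meet other components. Then
every cohomologically trivial class in `Ch^i(X)_ℚ` is the restriction of a class in `Ch^i(𝒳)_ℚ` whose arithmetic intersection number
with every cycle supported in closed fibres is zero. -/
theorem result (M : Model)
    (h : ∀ v, ∃ (n : ℕ) (f : Fin n → M.Ch → M.B v → ℚ),
      Decomposes M v f ∧ ∀ r, IsPurePiece M v (f r)) :
    ∀ c ∈ M.ChX0, ∃ z, M.rest z = c ∧ ∀ v b, M.GS z v b = 0 :=
  pure_ M h

end Pool.Agent.Results.MP_62d77c_ag.AbelianType
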