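import Pool.Agent.Helper7K9.CT.Main

/-!
# Orthogonal lifting of cohomologically trivial cycles of codimension two

Let `𝒳` be a regular proper flat model of a smooth proper variety `X` over a number field `E`. We prove
the assertion Q1 of the problem for cycles of codimension two, in every dimension, from the equality
of homological and numerical equivalence for one-cycles on the components of strictly semistable
reductions (only on those which meet other components, so that there is no condition at the places
of good reduction). The monodromy-weight conjecture, the Tate conjecture and the Hodge standard conjecture
are not assumed, and of the Hodge index theorems only the known one for divisors is used.

## The theorem

Suppose that at every closed point `v` of the ring of integers the cohomologically trivial classes in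
`Ch^i(X)` are retracts (`Decomposes`) of the cohomologically trivial classes of codimension two on
finitely many smooth projective varieties `X'` (`IsTwoPiece`), by correspondences `Γ` from `X` to `X'` and
`Γ'` from `X'` to `X` over a finite extension of the completion of `E`, such that `X'` has strictly
semistable reduction, and homological and numerical equivalence agree for cycles of dimension one
on the components of the reduction which meet other components (`HomEqNum W D 2`). Then every cohomologically trivial class in
`Ch^i(X)` is the restriction of a class in `Ch^i(𝒳)` which pairs to zero with all classes in
`Ch^(d+1-i)_fin(𝒳)`. The main case is `i = 2`, where `X'` is an alteration of `X` (de Jong).

For one-cycles on a smooth projective variety homological and numerical equivalence agree if the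
Tate conjecture for divisors holds, or if the Lefschetz standard conjecture holds in degree two
(the inverse of `L^(n-2) : H^2 → H^(2n-2)` is algebraic). So this is known for products of curves,
surfaces and abelian varieties (Kleiman), and it is not changed by blowing up smooth
subvarieties. The theorem gives Q1 in codimension two for every `X` such that this is the case for the
components of its bad reductions, and for example for all products of curves,
surfaces and abelian varieties and for all varieties dominated by such products, of any
dimension and with any reduction. (If `P ⇢ X` is a dominant rational map from such a product of the same
dimension, the resolution of indeterminacies adds to `Ch^2(P)` the groups `Ch^1` of the centres, which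
come from curves.)

## How the geometry enters

The objects of arithmetic intersection theory are given by the structure `Model` and by the
definitions `Decomposes` and `IsTwoPiece`, which list the known facts about the correspondences and about
the strictly semistable model `𝒳'` of `X'`, with the strata `D` of its closed fibre, which are smooth
projective varieties over the algebraically closed residue field `k`, and `ℓ`-adic cohomology `W` on them:

* `IsSemistable`: the square of the differential `ρ + γ` is zero, where `ρ` is the alternating sum of
  restrictions and `γ` the alternating sum of the Gysin maps between the strata;
* `IsPolarized`: positivity and the Hodge index theorem for the restrictions of an ample divisor;
* `HardLefschetz`: the hard Lefschetz theorem for the generic fibre of `𝒳'`, in terms of the weight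
  spectral sequence (whose terms `E_1` are given by `InE1`, with the differential `dif`);
* `Transfer`, `IsCompatible`: the correspondences, the projection formulas and the formula for
  the intersection numbers of two cycles on the closed fibre of a strictly semistable scheme;
* `HasWeightBoundaries`: if `z` is cohomologically trivial on `X`, then the element of `E_1^(0,4)` given by
  the classes of `Γ z` on the components is a boundary (weight spectral sequence of Rapoport and
  Zink).

## The proof

The lifting exists if and only if the intersection number of `Γ z` with every family `β` of cycles of
codimension `d - 2` on the components vanishes, when `ρβ` is orthogonal to `ρα` for all families `α` of
divisors. For such `β` the curves `γρβ` are numerically, hence homologically, trivial, and `ρβ` is a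
cocycle of total degree `2d - 3`. By the hard Lefschetz theorem it is `L^(d-3) a'` plus a boundary, with a
cocycle `a'` of total degree `3`, which is mapped to zero by `N : E_2^(-1,4) → E_2^(1,2)`, so that
`a' = ρ β' + γ c` for a class `β'` of degree two on the components, which need not be algebraic. As
a functional on curves `β'` is given by a combination `b` of divisors with coefficients in the field
of the `ℓ`-adic numbers, since homological and numerical equivalence agree for curves. Now the Hodge index
theorem for divisors (the key lemma of `UniruledFourfolds`, extended to combinations with coefficients)
gives `ρ b = γ w` with `ρ w = 0`. The rest `τ = β' - b` is orthogonal to all curves, and therefore to
`L^(d-3) Γ z`. It follows that the intersection number of `Γ z` and `β` vanishes.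
-/

set_option autoImplicit false

namespace Pool.Agent.Results.MP_62d77c_ag.CodimensionTwo

open Pool.Agent.Helper7K9.CT

/-- **Orthogonal lifting in codimension two.** Let `𝒳` be a regular proper flat model of a smooth
proper variety `X` over a number field, such that at every place the cohomologically trivial classes
of codimension `i` on `X` are retracts, by correspondences, of those of codimension two on varieties
`X'` with strictly semistable reduction for which homological and numerical equivalence agree for
one-cycles on the components of the reduction which meet other components. Then every cohomologically trivial class in
`Ch^i(X)_ℚ` is the restriction of a class in `Ch^i(𝒳)_ℚ` whose arithmetic intersection number with
every cycle supported in closed fibres is zero. -/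
theorem result (M : Model)
    (h : ∀ v, ∃ (n : ℕ) (f : Fin n → M.Ch → M.B v → ℚ),
      Decomposes M v f ∧ ∀ r, IsTwoPiece M v (f r)) :
    ∀ c ∈ M.ChX0, ∃ z, M.rest z = c ∧ ∀ v b, M.GS z v b = 0 :=
  codim_two M h

end Pool.Agent.Results.MP_62d77c_ag.CodimensionTwo
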