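import Pool.Agent.Helper7K9.CT.Hodge

/-!
# Orthogonal lifting in codimension two from one case of the Hodge standard conjecture

Let `𝒳` be a regular proper flat model of a smooth proper variety `X` over a number field `E`. We prove
the assertion Q1 of the problem for cycles of codimension two, in every dimension, from the Hodge
index theorem for cycles of codimension two, in numerical form, on the components of strictly
semistable reductions which meet other components. Nothing is assumed for the intersections of the
components, and nothing about the cohomology: no case of the weight-monodromy conjecture, the
Tate conjecture or the conjecture that homological and numerical equivalence agree.

## The theorem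

Suppose that at every closed point `v` of the ring of integers the cohomologically trivial classes in
`Ch^i(X)` are retracts (`Decomposes`) of the cohomologically trivial classes of codimension two on
finitely many smooth projective varieties `X'` of dimension `d ≥ 4` (`IsHodgePiece`), by correspondences
over a finite extension of the completion of `E`, such that `X'` has strictly semistable reduction, and
for the components `Y` of the reduction which meet other components (`HodgeIndexTwo`):

if `z` is a cycle of codimension two on `Y` and `L^(d-3) z` is numerically trivial, then
`deg L^(d-4) z^2 ≥ 0`, with equality only if `z` is numerically trivial.

Then every cohomologically trivial class in `Ch^i(X)` is the restriction of a class in `Ch^i(𝒳)` which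
pairs to zero with all classes in `Ch^(d+1-i)_fin(𝒳)`. The main case is `i = 2`, where `X'` is an
alteration of `X` (de Jong).

For a component of dimension four the condition says that the intersection form on the cycles of
codimension two modulo numerical equivalence has the signature `(ρ_2 - ρ_1 + 1, ρ_1 - 1)`. It is not
changed by blowing up points, curves and surfaces, and it holds for bundles of projective spaces
over arbitrary threefolds, surfaces and curves, and for abelian fourfolds (Ancona). For bundles
of projective lines over arbitrary threefolds the condition of `CodimensionTwo` (homological and
numerical equivalence agree for one-cycles) is not known.

## How the geometry enters

As in `CodimensionTwo`: `Model`, `Decomposes`, `Transfer` and `IsCompatible` (the Chow groups, the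
correspondences, the projection formulas and the formula for the intersection numbers of two
cycles on the closed fibre), and for the strata `D` of the closed fibre `IsSemistable`
(`(ρ + γ)^2 = 0`), `IsPolarized` (the Hodge index theorem for divisors) and `HasWeightBoundaries` (the
weight spectral sequence of Rapoport and Zink).

## The proof

Let `x` be the class of `Γ z` on the components. The key lemma of `UniruledFourfolds`, which uses the Hodge index
theorem for divisors on the components and on their intersections, gives a family `α` of divisors on the
components with `⟨x + γρα, δ⟩ = 0` with respect to `L^(d-3)` for all families `δ` of divisors. The class
`x' = x + γρα` is `γ a'` for a class `a'` with `γρ a' = 0`, so that `ρ x' = - γρ a' = 0` and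
`⟨x', x'⟩ = ⟨a', ρ x'⟩ = 0` with respect to `L^(d-4)`. By the Hodge index theorem in codimension two `x'` is
numerically trivial, that is, `z` has a lifting which is orthogonal to the cycles on the closed fibre.
-/

set_option autoImplicit false

namespace Pool.Agent.Results.MP_62d77c_ag.HodgeIndexTwo

open Pool.Agent.Helper7K9.CT

/-- **Orthogonal lifting from the Hodge index theorem in codimension two.** Let `𝒳` be a regular
proper flat model of a smooth proper variety `X` over a number field, such that at every place the
cohomologically trivial classes of codimension `i` on `X` are retracts, by correspondences, of those
of codimension two on varieties `X'` of dimension at least four with strictly semistable reduction,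
and the Hodge index theorem for cycles of codimension two holds on the components of the reduction
which meet other components. Then every cohomologically trivial class in `Ch^i(X)_ℚ` is the
restriction of a class in `Ch^i(𝒳)_ℚ` whose arithmetic intersection number with every cycle supported
in closed fibres is zero. -/
theorem result (M : Model)
    (h : ∀ v, ∃ (n : ℕ) (f : Fin n → M.Ch → M.B v → ℚ),
      Decomposes M v f ∧ ∀ r, IsHodgePiece M v (f r)) :
    ∀ c ∈ M.ChX0, ∃ z, M.rest z = c ∧ ∀ v b, M.GS z v b = 0 :=
  codim_two_hodge M h

end Pool.Agent.Results.MP_62d77c_ag.HodgeIndexTwo
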