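import Pool.Agent.Helper7K9.CT.Basic

/-!
# Orthogonal lifting of one-cycles, and of all cycles on uniruled fourfolds

Let `𝒳` be a regular proper flat model of a smooth proper variety `X` over a number field `E`. We prove
the assertion Q1 of the problem in codimension `i` for every `X` such that the cohomologically trivial
classes in `Ch^i(X)` come, by correspondences, from divisors, zero-cycles and one-cycles on other
varieties. No conjecture is assumed.

## The theorem

Suppose that at every closed point `v` of the ring of integers the cohomologically trivial classes in
`Ch^i(X)` are retracts (`Decomposes`) of the cohomologically trivial classes in the groups `Ch^j(X')` of
finitely many smooth projective varieties `X'` (`IsBasicPiece`; the dimension `d` and the codimension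
`j` may depend on `X'`), by correspondences `Γ` from `X` to `X'` and `Γ'` from `X'` to `X` over a finite
extension of the completion of `E`, where `X'` has strictly semistable reduction and `j = 1`, `j = d - 1`
or `j = d`. Then every cohomologically trivial class in `Ch^i(X)` is the restriction of a class in
`Ch^i(𝒳)` which pairs to zero with all classes in `Ch^(dim X+1-i)_fin(𝒳)`.

Consequences.

* The case `i = dim X - 1`, for every `X` and every `𝒳`: let `X'` be an alteration of `X` with strictly
  semistable reduction (de Jong), `Γ'` the push-forward and `Γ` the pull-back.
* The cases `i = 2` and `i = dim X - 2`, for every `X` whose zero-cycles are supported on a closed subset
  `W` of dimension at most three (over an algebraically closed extension field of infinite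
  transcendence degree): by the theorem of Bloch and Srinivas a multiple of the diagonal is the sum of a
  cycle supported on `W × X` and a cycle supported on `X × D`, for a divisor `D`. The first acts on
  `Ch^2(X)` through `Ch^2` of a resolution of `W` (one-cycles on threefolds, zero-cycles on surfaces),
  the second through the divisors on a resolution of `D`. The transposed decomposition for
  `i = dim X - 2` leads to one-cycles on the resolution of `D` and to divisors on that of `W`.
* So Q1 holds in all codimensions for all uniruled fourfolds, and for all varieties of dimension at
  most five which are rationally connected, or have rationally connected fibres over a base of
  dimension at most three. (For `i = 2` and `W` of dimension at most two homological and algebraic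
  equivalence agree, and Q1 is known for classes which are algebraically equivalent to zero.)

## How the geometry enters

The objects of arithmetic intersection theory are given by the structure `Model` and by the
definitions `Decomposes` and `IsBasicPiece`, which list the known facts about the correspondences and
about the strictly semistable model `𝒳'` of `X'`, with the strata `D` of its closed fibre, which are
smooth projective varieties over the algebraically closed residue field `k`, and `ℓ`-adic cohomology `W`
on them:

* `IsSemistable`: the square of the differential `ρ + γ` is zero, where `ρ` is the alternating sum of
  restrictions and `γ` the alternating sum of the Gysin maps between the strata;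
* `IsPolarized`: positivity and the Hodge index theorem for the restrictions of an ample divisor;
* `Transfer`, `IsCompatible`: the correspondences, the projection formulas and the formula for
  the intersection numbers of two cycles on the closed fibre of a strictly semistable scheme;
* `HasWeightBoundaries`: if `z` is cohomologically trivial on `X`, then the element of `E_1^(0,2j)` given
  by the classes of `Γ z` on the components is a boundary (weight spectral sequence of Rapoport and
  Zink; `InE1` describes its terms and `dif` the differential).

All of these are known theorems. No standard conjecture, no conjecture of Tate and no case of the
monodromy-weight conjecture is assumed.

## The proof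

The lifting exists if and only if the intersection number of `Γ z` with every family `β` of cycles of
codimension `d - j` on the components vanishes, when `ρβ` is orthogonal to `ρα` for all families `α` of
cycles of codimension `j - 1`. For one-cycles `β` is a family of divisors, and only divisors are needed:
we show (`lemk`, `keyC`) that if `ρβ` is orthogonal to `L^(d-3) ρβ'` for all families `β'` of divisors on
the components, then `ρβ = γ c` for a rational function `c` on the set of the threefold intersections
with `ρ c = 0`. This uses the Hodge index theorem for divisors on the components and on the double
intersections only. Then the intersection number of `Γ z` and `β` is
`⟨γ a, β⟩ = ⟨a, ρβ⟩ = ⟨a, γ c⟩ = ⟨ρ a, c⟩ = - ⟨γ b, c⟩ = - ⟨b, ρ c⟩ = 0`. The cases of divisors and of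
zero-cycles are classical; they are proved by the same method.
-/

set_option autoImplicit false

namespace Pool.Agent.Results.MP_62d77c_ag.UniruledFourfolds

open Pool.Agent.Helper7K9.CT

/-- **Orthogonal lifting of divisors, zero-cycles and one-cycles, and their retracts.** Let `𝒳` be a
regular proper flat model of a smooth proper variety `X` over a number field, such that at every place
the cohomologically trivial classes of codimension `i` on `X` are retracts, by correspondences, of
those of codimension `1`, `d - 1` or `d` on varieties `X'` of dimension `d` with strictly semistable
reduction. Then every cohomologically trivial class in `Ch^i(X)_ℚ` is the restriction of a class in
`Ch^i(𝒳)_ℚ` whose arithmetic intersection number with every cycle supported in closed fibres is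
zero. -/
theorem result (M : Model)
    (h : ∀ v, ∃ (n : ℕ) (f : Fin n → M.Ch → M.B v → ℚ),
      Decomposes M v f ∧ ∀ r, IsBasicPiece M v (f r)) :
    ∀ c ∈ M.ChX0, ∃ z, M.rest z = c ∧ ∀ v b, M.GS z v b = 0 :=
  basic M h

end Pool.Agent.Results.MP_62d77c_ag.UniruledFourfolds
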